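import Pool.Agent.R444.GQ.Stm

set_option autoImplicit false

open MeasureTheory Real Set

namespace Pool.Agent.R262.GQ

open Pool.Agent.R444.GQ

/-- `∫ cos θ log |1 - ρ e^{iθ}| = -π Re ρ` for `|ρ| < 1`. -/
lemma cos_log (ρ : ℂ) (hρ : ‖ρ‖ < 1) :
    IntervalIntegrable (fun θ : ℝ => Real.cos θ * Real.log ‖1 - ρ * Complex.exp (θ * Complex.I)‖)
      volume 0 (2 * π) ∧
    ∫ θ in (0:ℝ)..(2 * π), Real.cos θ * Real.log ‖1 - ρ * Complex.exp (θ * Complex.I)‖ =
      -π * ρ.re := by
  set f : ℂ → ℂ := fun z => Complex.log (1 - ρ * z) with hf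
  set U : Set ℂ := {z | ‖ρ * z‖ < 1} with hU
  have hslit : ∀ z ∈ U, (1 - ρ * z) ∈ Complex.slitPlane := by
    intro z hz
    left
    have h1 : (ρ * z).re ≤ ‖ρ * z‖ := Complex.re_le_norm _
    have h2 : ‖ρ * z‖ < 1 := hz
    simp only [Complex.sub_re, Complex.one_re]
    linarith
  have hdiff : ∀ z ∈ U, DifferentiableAt ℂ f z := by
    intro z hz
    exact ((differentiableAt_const _).sub ((differentiableAt_const _).mul differentiableAt_id)).clog
      (hslit z hz)
  have hball : Metric.closedBall (0:ℂ) 1 ⊆ U := by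
    intro z hz
    have h1 : ‖z‖ ≤ 1 := by simpa using hz
    show ‖ρ * z‖ < 1
    rw [norm_mul]
    calc ‖ρ‖ * ‖z‖ ≤ ‖ρ‖ * 1 := by gcongr
      _ < 1 := by linarith
  have hdc : DiffContOnCl ℂ f (Metric.ball 0 1) := by
    apply DifferentiableOn.diffContOnCl_ball (U := U) _ hball
    intro z hz
    exact (hdiff z hz).differentiableWithinAt
  have hderiv : deriv f 0 = -ρ := by
    have h : HasDerivAt f ((-(ρ * 1)) / (1 - ρ * 0)) 0 := by
      have h1 : HasDerivAt (fun z : ℂ => 1 - ρ * z) (-(ρ * 1)) 0 :=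
        ((hasDerivAt_id (0:ℂ)).const_mul ρ).const_sub 1
      exact h1.clog (by simp)
    rw [h.deriv]; simp
  have hd := DiffContOnCl.deriv_eq_smul_circleIntegral (c := (0:ℂ)) one_pos hdc
  have h0 : ∮ z in C((0:ℂ), 1), f z = 0 := hdc.circleIntegral_eq_zero zero_le_one
  -- convert to integrals over θ
  have hexp : ∀ θ : ℝ, circleMap (0:ℂ) 1 θ = Complex.exp (θ * Complex.I) := by
    intro θ; simp [circleMap]
  have e0 : ∫ θ in (0:ℝ)..(2 * π), Complex.exp (θ * Complex.I) * f (Complex.exp (θ * Complex.I)) = 0 := by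
    have h1 : ∮ z in C((0:ℂ), 1), f z = Complex.I *
        ∫ θ in (0:ℝ)..(2 * π), Complex.exp (θ * Complex.I) * f (Complex.exp (θ * Complex.I)) := by
      rw [circleIntegral, ← intervalIntegral.integral_const_mul]
      apply intervalIntegral.integral_congr
      intro θ _
      simp only [deriv_circleMap, smul_eq_mul, hexp]
      ring
    rw [h1] at h0
    exact (mul_eq_zero.mp h0).resolve_left Complex.I_ne_zero
  have e1 : ∫ θ in (0:ℝ)..(2 * π), Complex.exp (-(θ * Complex.I)) * f (Complex.exp (θ * Complex.I)) =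
      -2 * π * ρ := by
    have h1 : ∮ z in C((0:ℂ), 1), (1 / (z - 0) ^ 2) • f z = Complex.I *
        ∫ θ in (0:ℝ)..(2 * π), Complex.exp (-(θ * Complex.I)) * f (Complex.exp (θ * Complex.I)) := by
      rw [circleIntegral, ← intervalIntegral.integral_const_mul]
      apply intervalIntegral.integral_congr
      intro θ _
      simp only [deriv_circleMap, smul_eq_mul, hexp, sub_zero]
      have h2 : 1 / (Complex.exp (θ * Complex.I)) ^ 2 =
          Complex.exp (-(θ * Complex.I)) * Complex.exp (-(θ * Complex.I)) := by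
        rw [Complex.exp_neg, one_div, sq, mul_inv]
      rw [h2]
      have h3 : Complex.exp (θ * Complex.I) * Complex.exp (-(θ * Complex.I)) = 1 := by
        rw [← Complex.exp_add]; simp
      linear_combination (Complex.I * Complex.exp (-(θ * Complex.I)) *
        f (Complex.exp (θ * Complex.I))) * h3
    rw [h1, hderiv, smul_eq_mul] at hd
    have hpi : (2 * (π:ℂ) * Complex.I) ≠ 0 := by simp [Real.pi_ne_zero, Complex.I_ne_zero]
    have h4 : (2 * (π:ℂ) * Complex.I) * (-ρ) = Complex.I *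
        ∫ θ in (0:ℝ)..(2 * π), Complex.exp (-(θ * Complex.I)) * f (Complex.exp (θ * Complex.I)) := by
      rw [hd]
    have h5 : Complex.I * ((∫ θ in (0:ℝ)..(2 * π), Complex.exp (-(θ * Complex.I)) *
        f (Complex.exp (θ * Complex.I))) - (-2 * π * ρ)) = 0 := by
      linear_combination -h4
    have h6 := (mul_eq_zero.mp h5).resolve_left Complex.I_ne_zero
    linear_combination h6
  have hcontf : Continuous (fun θ : ℝ => f (Complex.exp (θ * Complex.I))) := by
    rw [continuous_iff_continuousAt]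
    intro θ
    have hz : Complex.exp (θ * Complex.I) ∈ U := by
      apply hball; simp [Complex.norm_exp_ofReal_mul_I]
    exact ContinuousAt.comp (f := fun θ : ℝ => Complex.exp (θ * Complex.I))
      (hdiff _ hz).continuousAt (by fun_prop)
  have hcE : Continuous (fun θ : ℝ => Complex.exp (θ * Complex.I)) := by fun_prop
  have hcE' : Continuous (fun θ : ℝ => Complex.exp (-(θ * Complex.I))) := by fun_prop
  have hcC : Continuous (fun θ : ℝ => (Real.cos θ : ℂ)) := by fun_prop
  have e2 : ∫ θ in (0:ℝ)..(2 * π), (Real.cos θ : ℂ) * f (Complex.exp (θ * Complex.I)) = -π * ρ := by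
    have hc : ∀ θ : ℝ, (Real.cos θ : ℂ) * f (Complex.exp (θ * Complex.I)) =
        (1/2) * (Complex.exp (θ * Complex.I) * f (Complex.exp (θ * Complex.I))) +
        (1/2) * (Complex.exp (-(θ * Complex.I)) * f (Complex.exp (θ * Complex.I))) := by
      intro θ
      rw [Complex.ofReal_cos, Complex.cos]
      rw [show -(θ:ℂ) * Complex.I = -(θ * Complex.I) by ring]
      ring
    simp_rw [hc]
    rw [intervalIntegral.integral_add, intervalIntegral.integral_const_mul,
      intervalIntegral.integral_const_mul, e0, e1]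
    · ring
    · exact Continuous.intervalIntegrable (continuous_const.mul (hcE.mul hcontf)) _ _
    · exact Continuous.intervalIntegrable (continuous_const.mul (hcE'.mul hcontf)) _ _
  have hre : ∀ θ : ℝ, Real.cos θ * Real.log ‖1 - ρ * Complex.exp (θ * Complex.I)‖ =
      ((Real.cos θ : ℂ) * f (Complex.exp (θ * Complex.I))).re := by
    intro θ
    rw [Complex.re_ofReal_mul, hf]
    simp only [Complex.log_re]
  constructor
  · apply Continuous.intervalIntegrable
    simp_rw [hre]
    exact Complex.continuous_re.comp (hcC.mul hcontf)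
  · simp_rw [hre]
    have h7 : ∫ θ in (0:ℝ)..(2 * π), ((Real.cos θ : ℂ) * f (Complex.exp (θ * Complex.I))).re =
        (∫ θ in (0:ℝ)..(2 * π), (Real.cos θ : ℂ) * f (Complex.exp (θ * Complex.I))).re := by
      have := Complex.reCLM.intervalIntegral_comp_comm (μ := volume) (a := (0:ℝ)) (b := 2 * π)
        (f := fun θ : ℝ => (Real.cos θ : ℂ) * f (Complex.exp (θ * Complex.I)))
        (Continuous.intervalIntegrable (hcC.mul hcontf) _ _)
      simpa using this
    rw [h7, e2]
    simp

theorem circ_thm : S_circ := by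
  intro m n k x hn hk hxk hkk
  have hk1 : 1 < k := by
    have h1 : (k ^ 2 - 1) * (x ^ 2 + 1) = n ^ 2 := by rw [← hxk] at hkk; nlinarith
    have h2 : 0 < (k ^ 2 - 1) * (x ^ 2 + 1) := by rw [h1]; positivity
    have h3 : 0 < k ^ 2 - 1 := by
      by_contra h
      push Not at h
      nlinarith [sq_nonneg x]
    nlinarith
  set ρ : ℂ := ⟨(x - m) / n, (k - 1) / n⟩ with hρd
  have hn0 : (n:ℝ) ≠ 0 := hn.ne'
  have hnorm : ‖ρ‖ < 1 := by
    have h1 : ‖ρ‖ ^ 2 = ((x - m) ^ 2 + (k - 1) ^ 2) / n ^ 2 := by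
      rw [← Complex.normSq_eq_norm_sq, Complex.normSq_mk]
      field_simp
    have h2 : (x - m) ^ 2 + (k - 1) ^ 2 < n ^ 2 := by
      have : n ^ 2 = m ^ 2 - 1 - x ^ 2 + k ^ 2 := by linarith
      rw [this, ← hxk]
      nlinarith [mul_pos (sub_pos.mpr hk1) (by positivity : (0:ℝ) < x ^ 2 + 1)]
    have h3 : ‖ρ‖ ^ 2 < 1 := by
      rw [h1, div_lt_one (by positivity)]; exact h2
    nlinarith [norm_nonneg ρ]
  -- the quadratic equation
  have hquad : (n:ℂ) ^ 2 * ρ ^ 2 + 2 * n * ((m:ℂ) + Complex.I) * ρ + (n:ℂ) ^ 2 = 0 := by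
    have h1 : (n:ℂ) * ρ + ((m:ℂ) + Complex.I) = (x:ℂ) + k * Complex.I := by
      apply Complex.ext
      · simp [hρd]; field_simp; ring
      · simp [hρd]; field_simp; ring
    have h2 : ((x:ℂ) + k * Complex.I) ^ 2 = ((m:ℂ) + Complex.I) ^ 2 - (n:ℂ) ^ 2 := by
      have e1 : (x:ℂ) ^ 2 - (k:ℂ) ^ 2 = (m:ℂ) ^ 2 - 1 - (n:ℂ) ^ 2 := by exact_mod_cast hkk
      have e2 : (x:ℂ) * k = m := by exact_mod_cast hxk
      have e3 : Complex.I ^ 2 = -1 := Complex.I_sq
      linear_combination e1 + 2 * Complex.I * e2 + ((k:ℂ)^2 - 1) * e3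
    rw [← h1] at h2
    linear_combination h2
  have hρ0 : ρ ≠ 0 := by
    intro h
    rw [h] at hquad
    simp at hquad
    exact hn0 hquad
  have hnρ : 0 < ‖ρ‖ := norm_pos_iff.mpr hρ0
  -- pointwise identity
  have hpt : ∀ θ : ℝ, Real.cos θ * Real.log (1 + (m + n * Real.cos θ) ^ 2) =
      (2 * Real.log (n / (2 * ‖ρ‖))) * Real.cos θ +
      (2 * (Real.cos θ * Real.log ‖1 - ρ * Complex.exp (θ * Complex.I)‖) +
      2 * (Real.cos θ * Real.log ‖1 - (starRingEnd ℂ ρ) * Complex.exp (θ * Complex.I)‖)) := by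
    intro θ
    have hE : Complex.exp (θ * Complex.I) * Complex.exp (-(θ * Complex.I)) = 1 := by
      rw [← Complex.exp_add]; simp
    have hcos : (Real.cos θ : ℂ) = (Complex.exp (θ * Complex.I) + Complex.exp (-(θ * Complex.I))) / 2 := by
      rw [Complex.ofReal_cos, Complex.cos, show -(θ:ℂ) * Complex.I = -(θ * Complex.I) by ring]
    have h1 : (1 - ρ * Complex.exp (θ * Complex.I)) * (1 - ρ * Complex.exp (-(θ * Complex.I))) * n =
        -(2 * ρ) * ((m:ℂ) + Complex.I + n * (Real.cos θ : ℂ)) := by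
      have hn0' : (n:ℂ) ≠ 0 := by exact_mod_cast hn0
      apply mul_left_cancel₀ hn0'
      rw [hcos]
      linear_combination hquad + (n:ℂ)^2 * ρ^2 * hE
    have h2 : ‖1 - (starRingEnd ℂ ρ) * Complex.exp (θ * Complex.I)‖ =
        ‖1 - ρ * Complex.exp (-(θ * Complex.I))‖ := by
      rw [← Complex.norm_conj (1 - ρ * Complex.exp (-(θ * Complex.I)))]
      congr 1
      simp [← Complex.exp_conj]
    have hlt : ∀ w : ℂ, ‖w‖ = 1 → 0 < ‖1 - ρ * w‖ := by
      intro w hw
      rw [norm_pos_iff]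
      intro h
      have : ‖ρ * w‖ = 1 := by
        have : ρ * w = 1 := by linear_combination -h
        rw [this]; simp
      rw [norm_mul, hw, mul_one] at this
      linarith
    have hp1 := hlt (Complex.exp (θ * Complex.I)) (by simp [Complex.norm_exp_ofReal_mul_I])
    have hp2 := hlt (Complex.exp (-(θ * Complex.I))) (by
      rw [show -((θ:ℂ) * Complex.I) = ((-θ : ℝ):ℂ) * Complex.I by push_cast; ring]
      exact Complex.norm_exp_ofReal_mul_I _)
    have h3 : 1 + (m + n * Real.cos θ) ^ 2 =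
        ((n / (2 * ‖ρ‖)) * ‖1 - ρ * Complex.exp (θ * Complex.I)‖ *
          ‖1 - ρ * Complex.exp (-(θ * Complex.I))‖) ^ 2 := by
      have h4 : ‖(m:ℂ) + Complex.I + n * (Real.cos θ : ℂ)‖ ^ 2 = 1 + (m + n * Real.cos θ) ^ 2 := by
        rw [← Complex.normSq_eq_norm_sq]
        have : (m:ℂ) + Complex.I + n * (Real.cos θ : ℂ) = ⟨m + n * Real.cos θ, 1⟩ := by
          apply Complex.ext
          · simp [← Complex.ofReal_cos]
          · simp [← Complex.ofReal_cos]
        rw [this, Complex.normSq_mk]; ring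
      have h5 := congrArg norm h1
      simp only [norm_mul, norm_neg, Complex.norm_real, Complex.norm_ofNat] at h5
      rw [Real.norm_of_nonneg hn.le] at h5
      rw [← h4]
      congr 1
      have h6 : ‖(m:ℂ) + Complex.I + n * (Real.cos θ : ℂ)‖ * (2 * ‖ρ‖) =
          ‖1 - ρ * Complex.exp (θ * Complex.I)‖ * ‖1 - ρ * Complex.exp (-(θ * Complex.I))‖ * n := by
        linarith [h5]
      have h7 : (2 * ‖ρ‖) ≠ 0 := by positivity
      rw [div_mul_eq_mul_div, div_mul_eq_mul_div, eq_div_iff h7, h6]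
      ring
    rw [h3, Real.log_pow, Real.log_mul (by positivity) hp2.ne', Real.log_mul (by positivity) hp1.ne', h2]
    push_cast
    ring
  have hcl1 := cos_log ρ hnorm
  have hcl2 := cos_log (starRingEnd ℂ ρ) (by rw [Complex.norm_conj]; exact hnorm)
  show ∫ θ in (0:ℝ)..(2 * π), Real.cos θ * Real.log (1 + (m + n * Real.cos θ) ^ 2) = 4 * π * (m - x) / n
  simp_rw [hpt]
  rw [intervalIntegral.integral_add, intervalIntegral.integral_add,
    intervalIntegral.integral_const_mul, intervalIntegral.integral_const_mul,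
    intervalIntegral.integral_const_mul, hcl1.2, hcl2.2, integral_cos]
  · simp [hρd]
    field_simp
    ring
  · exact hcl1.1.const_mul 2
  · exact hcl2.1.const_mul 2
  · apply Continuous.intervalIntegrable; fun_prop
  · exact (hcl1.1.const_mul 2).add (hcl2.1.const_mul 2)

end Pool.Agent.R262.GQ
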