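import Pool.Agent.R444.GQ.Stm

set_option autoImplicit false

open MeasureTheory Real Set

namespace Pool.Agent.R262.GQ

open Pool.Agent.R444.GQ

/-- the coefficient `1 + n^2 - m^2` -/
noncomputable def AA (δ σ u : ℝ) : ℝ := 1 + (σ * u) ^ 2 - (δ * (u - 1)) ^ 2

/-- the square of `k` -/
noncomputable def KK (δ σ u : ℝ) : ℝ :=
  (AA δ σ u + Real.sqrt (AA δ σ u ^ 2 + 4 * (δ * (u - 1)) ^ 2)) / 2

/-- `1 - 1/k` -/
noncomputable def hh (δ σ u : ℝ) : ℝ := 1 - 1 / Real.sqrt (KK δ σ u)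

lemma KK_eq (δ σ u : ℝ) : KK δ σ u ^ 2 - AA δ σ u * KK δ σ u - (δ * (u - 1)) ^ 2 = 0 := by
  have h : Real.sqrt (AA δ σ u ^ 2 + 4 * (δ * (u - 1)) ^ 2) ^ 2 =
      AA δ σ u ^ 2 + 4 * (δ * (u - 1)) ^ 2 := Real.sq_sqrt (by positivity)
  unfold KK
  linear_combination (1 / 4) * h

lemma KK_ge_AA (δ σ u : ℝ) : AA δ σ u ≤ KK δ σ u := by
  have h : AA δ σ u ≤ Real.sqrt (AA δ σ u ^ 2 + 4 * (δ * (u - 1)) ^ 2) := by
    apply Real.le_sqrt_of_sq_le
    nlinarith [sq_nonneg (δ * (u - 1))]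
  unfold KK
  linarith

lemma KK_ge_one (δ σ u : ℝ) : 1 ≤ KK δ σ u := by
  have h1 := KK_eq δ σ u
  have h2 := KK_ge_AA δ σ u
  by_contra h
  push Not at h
  have h3 : (1 - KK δ σ u) * (1 + KK δ σ u - AA δ σ u) = -(σ * u) ^ 2 := by
    have : AA δ σ u = 1 + (σ * u) ^ 2 - (δ * (u - 1)) ^ 2 := rfl
    linear_combination -h1 - this
  have h4 : 0 < (1 - KK δ σ u) * (1 + KK δ σ u - AA δ σ u) := by
    apply mul_pos <;> linarith
  nlinarith [sq_nonneg (σ * u)]

lemma KK_one (δ σ : ℝ) : KK δ σ 1 = 1 + σ ^ 2 := by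
  unfold KK AA
  simp only [mul_one, sub_self, mul_zero, ne_eq, OfNat.ofNat_ne_zero, not_false_eq_true, zero_pow,
    sub_zero, add_zero]
  rw [Real.sqrt_sq (by positivity)]
  ring

/-- sign of `K(u) - K(1)` -/
lemma KK_sign (δ σ u : ℝ) (hδ : 0 < δ) (hσ : δ < σ) (hu : 0 < u) (hu1 : u ≠ 1) :
    0 < (u - 1) * (KK δ σ u - (1 + σ ^ 2)) := by
  have h1 := KK_eq δ σ u
  have h2 := KK_ge_AA δ σ u
  have h3 : ((1 + σ ^ 2) - KK δ σ u) * ((1 + σ ^ 2) + KK δ σ u - AA δ σ u) =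
      σ ^ 2 * ((u - 1) * (-(1 + σ ^ 2) * (1 + u) + δ ^ 2 * (u - 1))) := by
    have : AA δ σ u = 1 + (σ * u) ^ 2 - (δ * (u - 1)) ^ 2 := rfl
    linear_combination -h1 - (1 + σ ^ 2) * this
  have h4 : 0 < (1 + σ ^ 2) + KK δ σ u - AA δ σ u := by
    have : 0 < 1 + σ ^ 2 := by positivity
    linarith
  have h5 : -(1 + σ ^ 2) * (1 + u) + δ ^ 2 * (u - 1) < 0 := by
    have : δ ^ 2 < σ ^ 2 := by nlinarith
    nlinarith [mul_pos (sub_pos.mpr this) hu, sq_nonneg δ, mul_pos hu (sq_pos_of_pos hδ)]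
  have h6 : 0 < (u - 1) ^ 2 := by
    have : u - 1 ≠ 0 := sub_ne_zero.mpr hu1
    positivity
  have h7 : 0 < ((u - 1) * (KK δ σ u - (1 + σ ^ 2))) * ((1 + σ ^ 2) + KK δ σ u - AA δ σ u) := by
    have h8 : ((u - 1) * (KK δ σ u - (1 + σ ^ 2))) * ((1 + σ ^ 2) + KK δ σ u - AA δ σ u) =
        (σ ^ 2 * (u - 1) ^ 2) * (-(-(1 + σ ^ 2) * (1 + u) + δ ^ 2 * (u - 1))) := by
      linear_combination -(u - 1) * h3
    rw [h8]
    apply mul_pos
    · apply mul_pos _ h6
      have : 0 < σ := by linarith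
      positivity
    · linarith
  exact (pos_iff_pos_of_mul_pos h7).mpr h4

lemma hh_sign (δ σ u : ℝ) (hδ : 0 < δ) (hσ : δ < σ) (hu : 0 < u) (hu1 : u ≠ 1) :
    0 < (u - 1) * (hh δ σ u - hh δ σ 1) := by
  have h := KK_sign δ σ u hδ hσ hu hu1
  have hK := KK_ge_one δ σ u
  have hK1 := KK_ge_one δ σ 1
  rw [← KK_one δ σ] at h
  unfold hh
  rcases lt_or_gt_of_ne hu1 with hlt | hgt
  · have h1 : KK δ σ u < KK δ σ 1 := by
      by_contra hc
      push Not at hc
      nlinarith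
    have h2 : Real.sqrt (KK δ σ u) < Real.sqrt (KK δ σ 1) := Real.sqrt_lt_sqrt (by linarith) h1
    have h3 : 0 < Real.sqrt (KK δ σ u) := Real.sqrt_pos.mpr (by linarith)
    have h4 := one_div_lt_one_div_of_lt h3 h2
    nlinarith
  · have h1 : KK δ σ 1 < KK δ σ u := by
      by_contra hc
      push Not at hc
      nlinarith
    have h2 : Real.sqrt (KK δ σ 1) < Real.sqrt (KK δ σ u) := Real.sqrt_lt_sqrt (by linarith) h1
    have h3 : 0 < Real.sqrt (KK δ σ 1) := Real.sqrt_pos.mpr (by linarith)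
    have h4 := one_div_lt_one_div_of_lt h3 h2
    nlinarith

lemma hh_mem (δ σ u : ℝ) : 0 ≤ hh δ σ u ∧ hh δ σ u ≤ 1 := by
  have hK := KK_ge_one δ σ u
  have h1 : 1 ≤ Real.sqrt (KK δ σ u) := Real.one_le_sqrt.mpr hK
  have h2 : 1 / Real.sqrt (KK δ σ u) ≤ 1 := by
    rw [div_le_one (by linarith)]; exact h1
  have h3 : 0 ≤ 1 / Real.sqrt (KK δ σ u) := by positivity
  unfold hh
  constructor <;> linarith

lemma hh_cont (δ σ : ℝ) : Continuous (hh δ σ) := by
  unfold hh
  have hA : Continuous (AA δ σ) := by unfold AA; fun_prop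
  have hK : Continuous (KK δ σ) := by
    unfold KK
    exact ((hA.add (Real.continuous_sqrt.comp (by fun_prop))).div_const 2)
  apply continuous_const.sub
  apply Continuous.div continuous_const (Real.continuous_sqrt.comp hK)
  intro u
  have := KK_ge_one δ σ u
  exact (Real.sqrt_pos.mpr (by linarith)).ne'

lemma int_exp : IntegrableOn (fun u : ℝ => Real.exp (-u)) (Ioi 0) := by
  have := Real.GammaIntegral_convergent (s := 1) one_pos
  simpa using this

lemma int_uexp : IntegrableOn (fun u : ℝ => Real.exp (-u) * u) (Ioi 0) := by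
  have := Real.GammaIntegral_convergent (s := 2) two_pos
  norm_num at this
  exact this

lemma int_uexp_val : ∫ u in Ioi (0:ℝ), Real.exp (-u) * u = 1 := by
  have := Real.Gamma_eq_integral (s := 2) two_pos
  norm_num at this
  rw [← this]

theorem L1B_thm (hc : S_circ) : S_L1B := by
  intro α β hβ hαβ
  set δ := α - β with hδd
  set σ := α + β with hσd
  have hδ : 0 < δ := by rw [hδd]; linarith
  have hσ : δ < σ := by rw [hδd, hσd]; linarith
  have hσ0 : 0 < σ := by linarith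
  have hJ : ∀ u ∈ Ioi (0:ℝ), Real.exp (-u) *
      (u * Jc (fun s => Real.log (1 + s ^ 2)) (δ * (u - 1)) (σ * u)) =
      (4 * π * δ / σ) * (Real.exp (-u) * ((u - 1) * hh δ σ u)) := by
    intro u hu
    have hu0 : (0:ℝ) < u := hu
    have hK := KK_ge_one δ σ u
    have hk : 0 < Real.sqrt (KK δ σ u) := Real.sqrt_pos.mpr (by linarith)
    have hk2 : Real.sqrt (KK δ σ u) ^ 2 = KK δ σ u := Real.sq_sqrt (by linarith)
    have h1 := hc (δ * (u - 1)) (σ * u) (Real.sqrt (KK δ σ u))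
      (δ * (u - 1) / Real.sqrt (KK δ σ u)) (by positivity) hk (by field_simp) (by
        rw [div_pow, hk2]
        have h2 := KK_eq δ σ u
        have h3 : AA δ σ u = 1 + (σ * u) ^ 2 - (δ * (u - 1)) ^ 2 := rfl
        have h4 : KK δ σ u ≠ 0 := by linarith
        field_simp
        linear_combination -h2 - KK δ σ u * h3)
    rw [h1]
    unfold hh
    field_simp
  rw [setIntegral_congr_fun measurableSet_Ioi hJ, integral_const_mul]
  apply mul_pos (by positivity)
  -- integrability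
  have hcont := hh_cont δ σ
  have hI1 : IntegrableOn (fun u : ℝ => Real.exp (-u) * (u - 1)) (Ioi 0) := by
    have : (fun u : ℝ => Real.exp (-u) * (u - 1)) =
        fun u => Real.exp (-u) * u - Real.exp (-u) := by ext u; ring
    rw [this]
    exact int_uexp.sub int_exp
  have hI1v : ∫ u in Ioi (0:ℝ), Real.exp (-u) * (u - 1) = 0 := by
    have : (fun u : ℝ => Real.exp (-u) * (u - 1)) =
        fun u => Real.exp (-u) * u - Real.exp (-u) := by ext u; ring
    rw [this, integral_sub int_uexp int_exp, int_uexp_val, integral_exp_neg_Ioi_zero, sub_self]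
  have hI2 : IntegrableOn (fun u : ℝ => Real.exp (-u) * ((u - 1) * hh δ σ u)) (Ioi 0) := by
    have : (fun u : ℝ => Real.exp (-u) * ((u - 1) * hh δ σ u)) =
        fun u => (Real.exp (-u) * (u - 1)) * hh δ σ u := by ext u; ring
    rw [this]
    apply Integrable.mul_bdd (c := 1) hI1
    · exact hcont.aestronglyMeasurable
    · filter_upwards with u
      have := hh_mem δ σ u
      rw [Real.norm_of_nonneg this.1]
      exact this.2
  have hsplit : ∫ u in Ioi (0:ℝ), Real.exp (-u) * ((u - 1) * hh δ σ u) =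
      ∫ u in Ioi (0:ℝ), Real.exp (-u) * ((u - 1) * (hh δ σ u - hh δ σ 1)) := by
    have : (fun u : ℝ => Real.exp (-u) * ((u - 1) * (hh δ σ u - hh δ σ 1))) =
        fun u => Real.exp (-u) * ((u - 1) * hh δ σ u) - Real.exp (-u) * (u - 1) * hh δ σ 1 := by
      ext u; ring
    rw [this, integral_sub hI2 (hI1.mul_const _), integral_mul_const, hI1v, zero_mul, sub_zero]
  rw [hsplit]
  have hI3 : IntegrableOn (fun u : ℝ => Real.exp (-u) * ((u - 1) * (hh δ σ u - hh δ σ 1))) (Ioi 0) := by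
    have : (fun u : ℝ => Real.exp (-u) * ((u - 1) * (hh δ σ u - hh δ σ 1))) =
        fun u => Real.exp (-u) * ((u - 1) * hh δ σ u) - Real.exp (-u) * (u - 1) * hh δ σ 1 := by
      ext u; ring
    rw [this]
    exact hI2.sub (hI1.mul_const _)
  have hpos : ∀ u : ℝ, 0 < u → u ≠ 1 →
      0 < Real.exp (-u) * ((u - 1) * (hh δ σ u - hh δ σ 1)) := by
    intro u hu hu1
    exact mul_pos (Real.exp_pos _) (hh_sign δ σ u hδ hσ hu hu1)
  rw [setIntegral_pos_iff_support_of_nonneg_ae]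
  · have hsub : Ioi (1:ℝ) ⊆ (Function.support fun u : ℝ =>
        Real.exp (-u) * ((u - 1) * (hh δ σ u - hh δ σ 1))) ∩ Ioi 0 := by
      intro u hu
      have hu1 : (1:ℝ) < u := hu
      refine ⟨(hpos u (by linarith) (by linarith)).ne', ?_⟩
      show (0:ℝ) < u
      linarith
    refine lt_of_lt_of_le ?_ (measure_mono hsub)
    simp
  · rw [Filter.EventuallyLE, ae_restrict_iff' measurableSet_Ioi]
    filter_upwards with u hu
    by_cases h : u = 1
    · simp [h]
    · exact (hpos u hu h).le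
  · exact hI3

end Pool.Agent.R262.GQ
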